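import Pool.Agent.helper80.HH.SpecA

/-!
# MP_07c750, project HH, row `hh:AHL`: the end of the pure part (from AHK and BFI)
-/

open MeasureTheory Set

set_option autoImplicit false

namespace Pool.Agent.HH

noncomputable section

theorem AHL_abs (k : ℤ) (L : ℕ) (w : ℝ) (h : 16 * (|k| + 1) ≤ (L : ℤ)) (h1 : (k : ℝ) / L ≤ w)
    (h2 : w ≤ (k + 1) / L) : |w| ≤ 1 / 16 := by
  have hk : (16 : ℝ) * (|(k : ℝ)| + 1) ≤ L := by exact_mod_cast h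
  have h0 : (0 : ℝ) ≤ |(k : ℝ)| := abs_nonneg _
  have hL : (0 : ℝ) < L := by linarith
  have a1 : (k : ℝ) ≤ |(k : ℝ)| := le_abs_self _
  have a2 : -|(k : ℝ)| ≤ (k : ℝ) := neg_abs_le _
  rw [div_le_iff₀ hL] at h1
  rw [le_div_iff₀ hL] at h2
  rw [abs_le]
  constructor
  · by_contra hc
    push Not at hc
    have := mul_lt_mul_of_pos_right hc hL
    linarith
  · by_contra hc
    push Not at hc
    have := mul_lt_mul_of_pos_right hc hL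
    linarith

theorem AHL_gw (C C1 : ℝ) (m L : ℕ) (W Q : Finset ℤ) (hC : C ≤ C1) (hQ : Q ⊆ W) (h : GW C m L W) :
    GW C1 m L Q := by
  intro i hi k0
  have a := h i hi k0
  have b : ((Q.filter fun k : ℤ => |(k : ℝ) - k0| ≤ L * Real.exp (-(i * m))).card : ℝ) ≤
      ((W.filter fun k : ℤ => |(k : ℝ) - k0| ≤ L * Real.exp (-(i * m))).card : ℝ) := by
    exact_mod_cast Finset.card_le_card (Finset.filter_subset_filter _ hQ)
  have c : C * Real.exp ((1 / 2 + eta) * ((4000 - i) * m)) ≤ C1 * Real.exp ((1 / 2 + eta) * ((4000 - i) * m)) :=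
    mul_le_mul_of_nonneg_right hC (Real.exp_pos _).le
  exact b.trans (a.trans c)

theorem AHL_proof (h1 : AHK_stmt) (h2 : BFI_stmt) : HAL_stmt := by
  classical
  intro C hC0
  obtain ⟨C1, mA, hC, hA⟩ := h1 C hC0
  obtain ⟨mB, hB⟩ := h2 C1 (hC0.trans hC)
  refine ⟨max mA mB, ?_⟩
  intro m L S P X W hm hl1 hl2 hstr hq hW hGW
  obtain ⟨V, hV, hk⟩ := hA m L S P X ((le_max_left _ _).trans hm) hl1 hl2 hstr hq
  set bad : ℤ → Prop := fun k => ∃ (w κ : ℝ) (Y : Set ℝ), (k : ℝ) / L ≤ w ∧ w ≤ (k + 1) / L ∧ 1 / 2 ≤ κ ∧ κ ≤ 2 ∧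
    GY C m Y ∧ Real.exp (-(4000 * m) / 1000000) <
      ∑ I ∈ S, Real.sqrt (∫ v in Y, ∫ v' in Y, ‖IR.ps (P I) (κ * IR.om w (X I) * (v - v'))‖ ^ 2) with hbad
  set Q : Finset ℤ := W.filter bad with hQdef
  have hQW : Q ⊆ W := Finset.filter_subset _ _
  have key : ∀ k ∈ Q, ∃ (w κ : ℝ) (A B : Finset ℤ) (R : ℤ → Finset (ℤ × ℤ)),
      ((k : ℝ) / L ≤ w ∧ w ≤ (k + 1) / L ∧ 1 / 2 ≤ κ ∧ κ ≤ 2) ∧
      Real.exp ((1 / 2 - 1 / 400000) * (4000 * m)) ≤ C1 * A.card ∧ CA C1 m L A ∧ B ⊆ S ∧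
        Real.exp (-(4000 * m) / 400000) * (C1 * Real.exp ((1 / 2 + eta) * (2 * (4000 * m)))) ≤ B.card ∧
        ∀ I ∈ B, R I ⊆ A ×ˢ A ∧ Real.exp (-2 * (4000 * m) / 400000) * (A.card : ℝ) ^ 2 ≤ C1 * (R I).card ∧
          ∀ z ∈ R I, ⌊κ * IR.om w (X I) * z.1⌋ - ⌊κ * IR.om w (X I) * z.2⌋ ∈ V I := by
    intro k hkQ
    obtain ⟨hkW, w, κ, Y, hw1, hw2, hκ1, hκ2, hY, hs⟩ := (by simpa [hQdef, hbad] using hkQ :
      k ∈ W ∧ ∃ (w κ : ℝ) (Y : Set ℝ), (k : ℝ) / L ≤ w ∧ w ≤ (k + 1) / L ∧ 2⁻¹ ≤ κ ∧ κ ≤ 2 ∧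
        GY C m Y ∧ Real.exp (-(4000 * m) / 1000000) <
        ∑ I ∈ S, Real.sqrt (∫ v in Y, ∫ v' in Y, ‖IR.ps (P I) (κ * IR.om w (X I) * (v - v'))‖ ^ 2))
    have hw : |w| ≤ 1 / 16 := AHL_abs k L w (hW k hkW) hw1 hw2
    have hκ1' : 1 / 2 ≤ κ := by rw [one_div]; exact hκ1
    obtain ⟨A, B, R, r⟩ := hk w κ Y hw hκ1' hκ2 hY hs
    exact ⟨w, κ, A, B, R, ⟨hw1, hw2, hκ1', hκ2⟩, r⟩
  choose! w κ A B R hr using key
  have hbdt : BDT C1 m L S Q X V w κ A B R := by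
    refine ⟨hl1, ?_, ?_, ?_, hstr.x0, hV, ?_, ?_, ?_, ?_, ?_, ?_, ?_⟩
    · exact hl2.trans (mul_le_mul_of_nonneg_right hC (Real.exp_pos _).le)
    · exact hstr.m0.trans (mul_le_mul_of_nonneg_right hC (Real.exp_pos _).le)
    · intro I hI
      exact (hstr.m1 I hI).trans (mul_le_mul_of_nonneg_right hC (Real.exp_pos _).le)
    · intro k hkQ
      exact hW k (hQW hkQ)
    · exact AHL_gw C C1 m L W Q hC hQW hGW
    · intro k hkQ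
      exact (hr k hkQ).1
    · intro k hkQ
      exact (hr k hkQ).2.1
    · intro k hkQ
      exact (hr k hkQ).2.2.1
    · intro k hkQ
      exact ⟨(hr k hkQ).2.2.2.1, (hr k hkQ).2.2.2.2.1⟩
    · intro k hkQ
      exact (hr k hkQ).2.2.2.2.2
  refine ⟨Q, hQW, hB m L S Q X V w κ A B R ((le_max_right _ _).trans hm) hbdt, ?_⟩
  intro k hkW hkQ w' κ' Y hw1 hw2 hκ1 hκ2 hY
  by_contra hcon
  push Not at hcon
  apply hkQ
  rw [hQdef, Finset.mem_filter]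
  exact ⟨hkW, w', κ', Y, hw1, hw2, hκ1, hκ2, hY, hcon⟩

end

end Pool.Agent.HH
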